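import Pool.Agent.K3h46.HP.Stm4

/-!
# HP2 brick CONV: symmetric powers of a composition
-/

set_option autoImplicit false

open Finset Pool.Agent.K3h46.HP

namespace Pool.Agent.K3h27.HP

variable (X : Powers)

/-- the point `j` is moved to the last point -/
def tau {n : ℕ} (j : Fin n) : Fin n → Fin (n + 1) := fun i => if i = j then Fin.last n else i.castSucc

theorem tau_self {n : ℕ} (j : Fin n) : tau j j = Fin.last n := by simp [tau]

theorem tau_ne {n : ℕ} {i j : Fin n} (h : i ≠ j) : tau j i = i.castSucc := by simp [tau, h]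

/-- the convolution with `b` at the point `j` -/
def conv (b : X.A 2) {n : ℕ} (j : Fin n) (x : X.A n) : X.A n :=
  X.push n (X.pull (tau j) x * X.edge b (Fin.last n) j.castSucc)

theorem conv_zero (b : X.A 2) {n : ℕ} (j : Fin n) : conv X b j 0 = 0 := by
  unfold conv
  rw [map_zero, zero_mul, map_zero]

theorem conv_sum (b : X.A 2) {n : ℕ} (j : Fin n) {ι : Type} (s : Finset ι) (f : ι → X.A n) :
    conv X b j (∑ i ∈ s, f i) = ∑ i ∈ s, conv X b j (f i) := by
  unfold conv
  rw [map_sum, Finset.sum_mul, map_sum]

theorem conv_edge (a b : X.A 2) {n : ℕ} (u j : Fin n) (hu : u ≠ j) (y : X.A n)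
    (hy : X.pull (tau j) y = X.pull Fin.castSucc y) :
    conv X b j (y * X.edge a u j) = y * X.edge (X.comp a b) u j := by
  unfold conv
  rw [map_mul (X.pull (tau j)), hy, pull_edge, tau_self, tau_ne hu, mul_assoc, X.projection]
  congr 1
  have e : X.edge a u.castSucc (Fin.last n) * X.edge b (Fin.last n) j.castSucc =
      X.pull (extend ![u, j]) (X.pull ![0, 2] a * X.pull ![2, 1] b) := by
    unfold Powers.edge
    rw [map_mul, X.pull_comp, X.pull_comp]
    congr 1
    · congr 1
      congr 1
      funext a
      fin_cases a <;> rfl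
    · congr 1
      congr 1
      funext a
      fin_cases a <;> rfl
  rw [e, X.base_change]
  rfl

/-- the intermediate sums -/
def S (a c : X.A 2) (N k : ℕ) : X.A (N + N) :=
  ∑ σ : Equiv.Perm (Fin N), ∏ i : Fin N,
    X.edge (if (σ i : ℕ) < k then c else a) (Fin.castAdd N i) (Fin.natAdd N (σ i))

theorem S_zero (a c : X.A 2) (N : ℕ) : S X a c N 0 = X.symPower a N := by
  unfold S Powers.symPower
  simp

theorem S_top (a c : X.A 2) (N : ℕ) : S X a c N N = X.symPower c N := by
  unfold S Powers.symPower
  simp

theorem S_succ (a b : X.A 2) (N : ℕ) (k : Fin N) :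
    conv X b (Fin.natAdd N k) (S X a (X.comp a b) N k) = S X a (X.comp a b) N (k + 1) := by
  unfold S
  rw [conv_sum]
  apply Finset.sum_congr rfl
  intro σ _
  have hk : σ (σ.symm k) = k := σ.apply_symm_apply k
  have hne : ∀ i ∈ Finset.univ.erase (σ.symm k), σ i ≠ k := by
    intro i hi h
    rw [Finset.mem_erase] at hi
    exact hi.1 (by rw [← h, Equiv.symm_apply_apply])
  rw [← Finset.prod_erase_mul _ _ (Finset.mem_univ (σ.symm k)),
    ← Finset.prod_erase_mul (a := σ.symm k) (f := fun i : Fin N => X.edge
      (if (σ i : ℕ) < (k : ℕ) + 1 then X.comp a b else a) (Fin.castAdd N i)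
      (Fin.natAdd N (σ i))) _ (Finset.mem_univ _)]
  rw [hk, if_neg (lt_irrefl _), if_pos (Nat.lt_succ_self _), conv_edge]
  · congr 1
    apply Finset.prod_congr rfl
    intro i hi
    have h1 := hne i hi
    have h2 : (σ i : ℕ) ≠ k := fun h => h1 (Fin.ext h)
    have h3 : ((σ i : ℕ) < k) ↔ ((σ i : ℕ) < (k : ℕ) + 1) := by omega
    by_cases h4 : (σ i : ℕ) < k
    · rw [if_pos h4, if_pos (h3.1 h4)]
    · rw [if_neg h4, if_neg (fun h => h4 (h3.2 h))]
  · intro h
    have := congrArg Fin.val h
    simp only [Fin.val_castAdd, Fin.val_natAdd] at this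
    have := (σ.symm k).isLt
    omega
  · rw [map_prod, map_prod]
    apply Finset.prod_congr rfl
    intro i hi
    rw [pull_edge, pull_edge, tau_ne, tau_ne]
    · intro h
      apply hne i hi
      have := congrArg Fin.val h
      simp only [Fin.val_natAdd] at this
      exact Fin.ext (by omega)
    · intro h
      have := congrArg Fin.val h
      simp only [Fin.val_castAdd, Fin.val_natAdd] at this
      have := i.isLt
      omega

theorem t_Conv : StmConv := by
  intro X a b N h
  have key : ∀ k : ℕ, k ≤ N → S X a (X.comp a b) N k = 0 := by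
    intro k
    induction k with
    | zero => intro _; rw [S_zero, h]
    | succ k ih =>
      intro hk
      have := S_succ X a b N ⟨k, hk⟩
      rw [← this]
      simp only
      rw [ih (by omega), conv_zero]
  rw [← S_top X a (X.comp a b) N]
  exact key N le_rfl

end Pool.Agent.K3h27.HP
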